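import Pool.Agent.Q256.UI.Stm

/-!
# Project UI (helper256), job DYA: the dyadic decomposition
-/

set_option autoImplicit false
set_option linter.unusedSectionVars false
set_option linter.unusedVariables false

namespace Pool.Agent.Q149.UI

open Finset MvPolynomial
open Pool.Agent.Q256.UI
open Pool.Agent.Q256.UP (PBox)

theorem fam_finite (Φ : MvPolynomial (Fin 2) ℤ) (d H : ℕ) : (Fam Φ d H).Finite := by
  have h1 : Fam Φ d H = (fun G => Φ + G) '' PBox (d - 1) H := by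
    ext F
    constructor
    · rintro ⟨G, hG, rfl⟩
      exact ⟨G, hG, rfl⟩
    · rintro ⟨G, hG, rfl⟩
      exact ⟨G, hG, rfl⟩
  rw [h1]
  exact (Pool.Agent.Q256.UP.finite_pbox _ _).image _

theorem zr_sub (Φ : MvPolynomial (Fin 2) ℤ) (d H a b : ℕ) : ZR Φ d H a b ⊆ Fam Φ d H :=
  fun F hF => hF.1

theorem zr_finite (Φ : MvPolynomial (Fin 2) ℤ) (d H a b : ℕ) : (ZR Φ d H a b).Finite :=
  (fam_finite Φ d H).subset (zr_sub Φ d H a b)

theorem geo_sum (S : Finset ℕ) (c B : ℝ) (hc : 0 ≤ c) (hB : 0 ≤ B) (h : ∀ n ∈ S, 2 ^ n * c ≤ B) :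
    ∑ n ∈ S, (2 : ℝ) ^ n * c ≤ 2 * B := by
  rcases S.eq_empty_or_nonempty with rfl | hne
  · rw [sum_empty]
    positivity
  · set M := S.max' hne with hM
    have h1 : ∑ k ∈ S, 2 ^ k < 2 ^ (M + 1) :=
      Nat.geomSum_lt (le_refl 2) fun k hk => Nat.lt_succ_of_le (S.le_max' k hk)
    have h2 : (∑ k ∈ S, (2 : ℝ) ^ k) ≤ 2 ^ (M + 1) := by exact_mod_cast h1.le
    rw [← sum_mul]
    calc (∑ k ∈ S, (2 : ℝ) ^ k) * c ≤ 2 ^ (M + 1) * c := mul_le_mul_of_nonneg_right h2 hc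
      _ = 2 * (2 ^ M * c) := by ring
      _ ≤ 2 * B := by
          have := h M (S.max'_mem hne)
          linarith

theorem log_bound (K e : ℕ) (hK : 1 ≤ K) : ∃ C : ℝ, 1 ≤ C ∧ ∀ H : ℕ, 1 ≤ H →
    ((Nat.log 2 ((K * H) ^ e) + 1 : ℕ) : ℝ) ≤ C * (H : ℝ) ^ (1 / 42 : ℝ) := by
  have hl2 : 0 < Real.log 2 := Real.log_pos (by norm_num)
  have hlK : 0 ≤ Real.log K := Real.log_natCast_nonneg K
  refine ⟨e * (Real.log K + 42) / Real.log 2 + 1, by
    have : 0 ≤ (e : ℝ) * (Real.log K + 42) / Real.log 2 := by positivity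
    linarith, fun H hH => ?_⟩
  have hH0 : (0 : ℝ) < H := by exact_mod_cast hH
  have hH1 : (1 : ℝ) ≤ H := by exact_mod_cast hH
  have hK0 : (0 : ℝ) < K := by exact_mod_cast hK
  have h1 : (1 : ℝ) ≤ (H : ℝ) ^ (1 / 42 : ℝ) := Real.one_le_rpow hH1 (by norm_num)
  have h2 : Real.log H ≤ 42 * (H : ℝ) ^ (1 / 42 : ℝ) := by
    have := Real.log_le_rpow_div hH0.le (show (0 : ℝ) < 1 / 42 by norm_num)
    rw [div_eq_mul_inv] at this
    norm_num at this ⊢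
    linarith
  have h3 : ((Nat.log 2 ((K * H) ^ e) : ℕ) : ℝ) ≤ e * (Real.log K + Real.log H) / Real.log 2 := by
    have h4 := Real.natLog_le_logb ((K * H) ^ e) 2
    refine h4.trans (le_of_eq ?_)
    unfold Real.logb
    push_cast
    rw [Real.log_pow, Real.log_mul hK0.ne' hH0.ne']
  push_cast
  have h4 : (e : ℝ) * (Real.log K + Real.log H) ≤ e * (Real.log K + 42) * (H : ℝ) ^ (1 / 42 : ℝ) := by
    rw [mul_assoc]
    refine mul_le_mul_of_nonneg_left ?_ (Nat.cast_nonneg e)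
    have h5 : Real.log K ≤ Real.log K * (H : ℝ) ^ (1 / 42 : ℝ) := le_mul_of_one_le_right hlK h1
    linarith
  have h5 : (e : ℝ) * (Real.log K + Real.log H) / Real.log 2 ≤
      e * (Real.log K + 42) / Real.log 2 * (H : ℝ) ^ (1 / 42 : ℝ) := by
    rw [div_mul_eq_mul_div]
    exact div_le_div_of_nonneg_right h4 hl2.le
  linarith

theorem cover {Φ : MvPolynomial (Fin 2) ℤ} {d H K e : ℕ} (hK : 1 ≤ K) (hH : 1 ≤ H) :
    ZR Φ d H (K * H) ((K * H) ^ e) ⊆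
      ⋃ n ∈ range (Nat.log 2 ((K * H) ^ e) + 1), ZR Φ d H (2 ^ n * (K * H)) (2 * (2 ^ n * (K * H))) := by
  rintro F ⟨hF, x, y, hx1, hx2, hy, hz⟩
  have hKH : 1 ≤ K * H := Nat.mul_le_mul hK hH
  obtain ⟨X, rfl⟩ : ∃ X : ℕ, x = X := ⟨x.toNat, by
    rw [Int.toNat_of_nonneg]
    have : (0 : ℤ) ≤ ((K * H : ℕ) : ℤ) := Int.natCast_nonneg _
    linarith⟩
  have hX1 : K * H ≤ X := by exact_mod_cast hx1
  have hX2 : X ≤ (K * H) ^ e := by exact_mod_cast hx2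
  set n := Nat.log 2 (X / (K * H)) with hn
  have hq : X / (K * H) ≠ 0 := by
    have := Nat.div_pos hX1 (by omega)
    omega
  have h1 : 2 ^ n ≤ X / (K * H) := Nat.pow_log_le_self 2 hq
  have h2 : X / (K * H) < 2 ^ (n + 1) := Nat.lt_pow_succ_log_self (by norm_num) _
  have h3 : 2 ^ n * (K * H) ≤ X := (Nat.le_div_iff_mul_le (by omega)).1 h1
  have h4 : X ≤ 2 * (2 ^ n * (K * H)) := by
    have h5 := (Nat.div_lt_iff_lt_mul (by omega : 0 < K * H)).1 h2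
    calc X ≤ 2 ^ (n + 1) * (K * H) := h5.le
      _ = 2 * (2 ^ n * (K * H)) := by ring
  have h5 : n ≤ Nat.log 2 ((K * H) ^ e) :=
    Nat.log_mono_right ((Nat.div_le_self _ _).trans hX2)
  rw [Set.mem_iUnion₂]
  refine ⟨n, mem_range.2 (by omega), hF, (X : ℤ), y, ?_, ?_, hy, hz⟩
  · exact_mod_cast h3
  · exact_mod_cast h4

theorem dya (hP : S_PKG) (hN : S_BGN) (hD : S_BGD) (hM : S_MID) : S_DYA := by
  intro d Φ hd hL
  obtain ⟨Θ, A, hpkg⟩ := hP d Φ (by omega) hL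
  obtain ⟨C1, hC1, h1⟩ := hN d Φ Θ A hd hL hpkg
  obtain ⟨C2, hC2, h2⟩ := hD d Φ Θ A hd hL hpkg
  obtain ⟨C3, hC3, h3⟩ := hM d Φ (by omega) hL
  refine ⟨max 1 ⌈C3⌉₊, fun K e hK => ?_⟩
  have hK1 : 1 ≤ K := (le_max_left _ _).trans hK
  have hKC : C3 ≤ K := (Nat.le_ceil C3).trans (by exact_mod_cast (le_max_right _ _).trans hK)
  obtain ⟨C4, hC4, h4⟩ := log_bound K e hK1
  refine ⟨2 * C3 * (d : ℝ) ^ (d - 3) + (C1 + C2) * C4, ?_, fun H hH => ?_⟩
  · have h5 : 0 ≤ 2 * C3 * (d : ℝ) ^ (d - 3) := by positivity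
    have h6 : 1 * 1 ≤ (C1 + C2) * C4 :=
      mul_le_mul (by linarith) hC4 zero_le_one (by linarith)
    linarith
  have hH0 : (0 : ℝ) < H := by exact_mod_cast hH
  have hH1 : (1 : ℝ) ≤ H := by exact_mod_cast hH
  set L : ℕ := Nat.log 2 ((K * H) ^ e) + 1 with hLdef
  set T : ℕ → ℕ := fun n => 2 ^ n * (K * H) with hT
  have hcov := cover (Φ := Φ) (d := d) (e := e) hK1 hH
  have hsum : (Nat.card (ZR Φ d H (K * H) ((K * H) ^ e)) : ℝ) ≤
      ∑ n ∈ range L, (Nat.card (ZR Φ d H (T n) (2 * T n)) : ℝ) := by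
    have h5 : (ZR Φ d H (K * H) ((K * H) ^ e)).ncard ≤
        ∑ n ∈ range L, (ZR Φ d H (T n) (2 * T n)).ncard := by
      refine (Set.ncard_le_ncard hcov ?_).trans ?_
      · exact Set.Finite.biUnion (range L).finite_toSet fun n _ => zr_finite _ _ _ _ _
      · exact Finset.set_ncard_biUnion_le _ _
    exact_mod_cast h5
  refine hsum.trans ?_
  set B : ℝ := ((d : ℝ) * H) ^ (d - 3) with hB
  have hB0 : 0 ≤ B := by positivity
  rw [← sum_filter_add_sum_filter_not (range L) (fun n => (d * H) ^ (d - 3) ≤ T n)]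
  -- large
  have hlarge : ∑ n ∈ (range L).filter (fun n => (d * H) ^ (d - 3) ≤ T n),
      (Nat.card (ZR Φ d H (T n) (2 * T n)) : ℝ) ≤ (C1 + C2) * C4 * (H : ℝ) ^ ((NN d : ℝ) - 7 / 6) := by
    have h5 : ∀ n ∈ (range L).filter (fun n => (d * H) ^ (d - 3) ≤ T n),
        (Nat.card (ZR Φ d H (T n) (2 * T n)) : ℝ) ≤ (C1 + C2) * (H : ℝ) ^ ((NN d : ℝ) - 25 / 21) := by
      intro n hn
      have hTn := (mem_filter.1 hn).2
      have h6 : ZR Φ d H (T n) (2 * T n) ⊆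
          {F | F ∈ ZR Φ d H (T n) (2 * T n) ∧ ∀ θ ∈ Θ, 1 / 4 < |rho d (tc F θ)|} ∪
          {F | F ∈ ZR Φ d H (T n) (2 * T n) ∧ ∃ θ ∈ Θ, |rho d (tc F θ)| ≤ 1 / 4} := by
        intro F hF
        by_cases h7 : ∀ θ ∈ Θ, 1 / 4 < |rho d (tc F θ)|
        · exact Or.inl ⟨hF, h7⟩
        · push Not at h7
          exact Or.inr ⟨hF, h7⟩
      have h7 : (ZR Φ d H (T n) (2 * T n)).ncard ≤
          {F | F ∈ ZR Φ d H (T n) (2 * T n) ∧ ∀ θ ∈ Θ, 1 / 4 < |rho d (tc F θ)|}.ncard +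
          {F | F ∈ ZR Φ d H (T n) (2 * T n) ∧ ∃ θ ∈ Θ, |rho d (tc F θ)| ≤ 1 / 4}.ncard := by
        refine (Set.ncard_le_ncard h6 ?_).trans (Set.ncard_union_le _ _)
        exact ((zr_finite Φ d H _ _).subset fun F hF => hF.1).union
          ((zr_finite Φ d H _ _).subset fun F hF => hF.1)
      have h8 := h1 H (T n) hH hTn
      have h9 := h2 H (T n) hH hTn
      have h10 : (Nat.card (ZR Φ d H (T n) (2 * T n)) : ℝ) ≤
          (Nat.card {F | F ∈ ZR Φ d H (T n) (2 * T n) ∧ ∀ θ ∈ Θ, 1 / 4 < |rho d (tc F θ)|} : ℝ) +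
          (Nat.card {F | F ∈ ZR Φ d H (T n) (2 * T n) ∧ ∃ θ ∈ Θ, |rho d (tc F θ)| ≤ 1 / 4} : ℝ) := by
        exact_mod_cast h7
      have h11 : (H : ℝ) ^ ((NN d : ℝ) - 10 / 3) ≤ (H : ℝ) ^ ((NN d : ℝ) - 25 / 21) :=
        Real.rpow_le_rpow_of_exponent_le hH1 (by linarith)
      have h12 : C1 * (H : ℝ) ^ ((NN d : ℝ) - 10 / 3) ≤ C1 * (H : ℝ) ^ ((NN d : ℝ) - 25 / 21) :=
        mul_le_mul_of_nonneg_left h11 (by linarith)
      linarith
    refine (sum_le_card_nsmul _ _ _ h5).trans ?_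
    rw [nsmul_eq_mul]
    have h6 : (((range L).filter (fun n => (d * H) ^ (d - 3) ≤ T n)).card : ℝ) ≤
        C4 * (H : ℝ) ^ (1 / 42 : ℝ) := by
      have h7 := card_filter_le (range L) (fun n => (d * H) ^ (d - 3) ≤ T n)
      rw [card_range] at h7
      have h8 : (((range L).filter (fun n => (d * H) ^ (d - 3) ≤ T n)).card : ℝ) ≤ (L : ℝ) := by
        exact_mod_cast h7
      exact h8.trans (h4 H hH)
    have h7 : (H : ℝ) ^ ((NN d : ℝ) - 7 / 6) =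
        (H : ℝ) ^ (1 / 42 : ℝ) * (H : ℝ) ^ ((NN d : ℝ) - 25 / 21) := by
      rw [← Real.rpow_add hH0]
      congr 1
      ring
    rw [h7]
    calc _ ≤ (C4 * (H : ℝ) ^ (1 / 42 : ℝ)) * ((C1 + C2) * (H : ℝ) ^ ((NN d : ℝ) - 25 / 21)) :=
          mul_le_mul_of_nonneg_right h6 (by positivity)
      _ = _ := by ring
  -- small
  have hsmall : ∑ n ∈ (range L).filter (fun n => ¬ (d * H) ^ (d - 3) ≤ T n),
      (Nat.card (ZR Φ d H (T n) (2 * T n)) : ℝ) ≤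
      2 * C3 * (d : ℝ) ^ (d - 3) * (H : ℝ) ^ ((NN d : ℝ) - 7 / 6) := by
    have h5 : ∀ n ∈ (range L).filter (fun n => ¬ (d * H) ^ (d - 3) ≤ T n),
        (Nat.card (ZR Φ d H (T n) (2 * T n)) : ℝ) ≤
        ((2 : ℝ) ^ n * ((K * H : ℕ) : ℝ)) * (C3 * (H : ℝ) ^ ((NN d : ℝ) + 1 - d)) := by
      intro n _
      have h6 := h3 H (T n) hH (by
        rw [hT]
        push_cast
        have h7 : (1 : ℝ) ≤ 2 ^ n := one_le_pow₀ (by norm_num)
        calc C3 * H ≤ K * H := mul_le_mul_of_nonneg_right hKC hH0.le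
          _ ≤ 2 ^ n * (K * H) := le_mul_of_one_le_left (by positivity) h7)
      refine h6.trans (le_of_eq ?_)
      rw [hT]
      push_cast
      ring
    refine (sum_le_sum h5).trans ?_
    rw [← sum_mul]
    have h6 := geo_sum ((range L).filter (fun n => ¬ (d * H) ^ (d - 3) ≤ T n)) ((K * H : ℕ) : ℝ) B
      (Nat.cast_nonneg _) hB0 (fun n hn => by
        have h7 := not_le.1 (mem_filter.1 hn).2
        rw [hB]
        exact_mod_cast h7.le)
    have h7 : (H : ℝ) ^ (d - 3) * (H : ℝ) ^ ((NN d : ℝ) + 1 - d) = (H : ℝ) ^ ((NN d : ℝ) - 2) := by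
      rw [← Real.rpow_natCast, ← Real.rpow_add hH0]
      congr 1
      rw [Nat.cast_sub (by omega)]
      push_cast
      ring
    have h8 : (H : ℝ) ^ ((NN d : ℝ) - 2) ≤ (H : ℝ) ^ ((NN d : ℝ) - 7 / 6) :=
      Real.rpow_le_rpow_of_exponent_le hH1 (by linarith)
    calc _ ≤ (2 * B) * (C3 * (H : ℝ) ^ ((NN d : ℝ) + 1 - d)) :=
          mul_le_mul_of_nonneg_right h6 (by positivity)
      _ = 2 * C3 * (d : ℝ) ^ (d - 3) * ((H : ℝ) ^ (d - 3) * (H : ℝ) ^ ((NN d : ℝ) + 1 - d)) := by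
          rw [hB, mul_pow]
          ring
      _ ≤ _ := by
          rw [h7]
          exact mul_le_mul_of_nonneg_left h8 (by positivity)
  linarith

end Pool.Agent.Q149.UI
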