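import Pool.Agent.Q256.UI.Stm

/-!
# Project UI (helper256), job IRR: irreducibility from the leading form
-/

set_option autoImplicit false
set_option linter.unusedSectionVars false
set_option linter.unusedVariables false

namespace Pool.Agent.Q149.UI

open Finset MvPolynomial
open Pool.Agent.Q256.UI

theorem top_mul {σ R : Type} [CommRing R] (A B : MvPolynomial σ R) {a b : ℕ}
    (ha : A.totalDegree ≤ a) (hb : B.totalDegree ≤ b) :
    homogeneousComponent (a + b) (A * B) = homogeneousComponent a A * homogeneousComponent b B := by
  have hsum : ∀ (P : MvPolynomial σ R) {n : ℕ}, P.totalDegree ≤ n →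
      ∑ i ∈ range (n + 1), homogeneousComponent i P = P := by
    intro P n hn
    conv_rhs => rw [← sum_homogeneousComponent P]
    symm
    refine sum_subset (fun i hi => ?_) (fun i _ hi => ?_)
    · rw [mem_range] at hi ⊢
      omega
    · rw [mem_range, not_lt] at hi
      exact homogeneousComponent_eq_zero _ _ (by omega)
  have h1 : A * B = ∑ i ∈ range (a + 1), ∑ j ∈ range (b + 1),
      homogeneousComponent i A * homogeneousComponent j B := by
    rw [← sum_mul_sum, hsum A ha, hsum B hb]
  conv_lhs => rw [h1]
  rw [map_sum]
  have h2 : ∀ i ∈ range (a + 1), homogeneousComponent (a + b) (∑ j ∈ range (b + 1),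
      homogeneousComponent i A * homogeneousComponent j B) =
      if i = a then homogeneousComponent a A * homogeneousComponent b B else 0 := by
    intro i hi
    rw [map_sum]
    have h3 : ∀ j ∈ range (b + 1), homogeneousComponent (a + b)
        (homogeneousComponent i A * homogeneousComponent j B) =
        if j = b then (if i = a then homogeneousComponent a A * homogeneousComponent b B else 0)
          else 0 := by
      intro j hj
      rw [mem_range] at hi hj
      rw [homogeneousComponent_of_mem
        ((homogeneousComponent_isHomogeneous i A).mul (homogeneousComponent_isHomogeneous j B))]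
      by_cases hia : i = a
      · by_cases hjb : j = b
        · rw [if_pos (by omega), if_pos hjb, if_pos hia, hia, hjb]
        · rw [if_neg (by omega), if_neg hjb]
      · rw [if_neg (by omega)]
        split_ifs <;> rfl
    rw [sum_congr rfl h3, sum_ite_eq', if_pos (mem_range.2 (Nat.lt_succ_self b))]
  rw [sum_congr rfl h2, sum_ite_eq', if_pos (mem_range.2 (Nat.lt_succ_self a))]

theorem irr : S_IRR := by
  intro d Φ G hd hL hG
  have hinj : Function.Injective (Int.castRingHom ℚ) := Int.cast_injective
  have hm0 : MvPolynomial.map (Int.castRingHom ℚ) Φ ≠ 0 := hL.irr.ne_zero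
  have hΦ0 : Φ ≠ 0 := by
    rintro rfl
    exact hm0 (map_zero _)
  have hΦd : Φ.totalDegree = d := hL.hom.totalDegree hΦ0
  have h1 : (Φ + G).totalDegree = d := by
    rw [totalDegree_add_eq_left_of_totalDegree_lt (by omega), hΦd]
  have h2 : homogeneousComponent d (Φ + G) = Φ := by
    rw [map_add, homogeneousComponent_eq_self hL.hom, homogeneousComponent_eq_zero _ _ (by omega),
      add_zero]
  refine ⟨h1, h2, ?_⟩
  set f : MvPolynomial (Fin 2) ℚ := MvPolynomial.map (Int.castRingHom ℚ) Φ with hf
  set F : MvPolynomial (Fin 2) ℚ := MvPolynomial.map (Int.castRingHom ℚ) (Φ + G) with hF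
  have hfd : f.IsHomogeneous d := hL.hom.map _
  have hf' : f.totalDegree = d := hfd.totalDegree hm0
  have hg' : (MvPolynomial.map (Int.castRingHom ℚ) G).totalDegree ≤ d - 1 :=
    (Finset.sup_mono (support_map_subset _ _)).trans hG
  have hFe : F = f + MvPolynomial.map (Int.castRingHom ℚ) G := by
    rw [hF, map_add]
  have hFd : F.totalDegree = d := by
    rw [hFe, totalDegree_add_eq_left_of_totalDegree_lt (by omega), hf']
  have hFt : homogeneousComponent d F = f := by
    rw [hFe, map_add, homogeneousComponent_eq_self hfd, homogeneousComponent_eq_zero _ _ (by omega),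
      add_zero]
  have hF0 : F ≠ 0 := by
    intro h
    rw [h, totalDegree_zero] at hFd
    omega
  have key : ∀ (P : MvPolynomial (Fin 2) ℚ), P ≠ 0 →
      IsUnit (homogeneousComponent P.totalDegree P) → IsUnit P := by
    intro P hP hu
    rw [isUnit_iff_totalDegree_of_isReduced] at hu
    have h3 : homogeneousComponent P.totalDegree P ≠ 0 := by
      intro h
      rw [h, coeff_zero] at hu
      exact not_isUnit_zero hu.1
    have h4 : P.totalDegree = 0 := by
      rw [← (homogeneousComponent_isHomogeneous P.totalDegree P).totalDegree h3]
      exact hu.2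
    rw [isUnit_iff_totalDegree_of_isReduced]
    refine ⟨?_, h4⟩
    have h5 := hu.1
    rw [h4, homogeneousComponent_zero, coeff_C, if_pos rfl] at h5
    exact h5
  constructor
  · intro hu
    rw [isUnit_iff_totalDegree_of_isReduced] at hu
    omega
  · intro A B hAB
    have hA0 : A ≠ 0 := by
      rintro rfl
      rw [zero_mul] at hAB
      exact hF0 hAB
    have hB0 : B ≠ 0 := by
      rintro rfl
      rw [mul_zero] at hAB
      exact hF0 hAB
    have h3 : A.totalDegree + B.totalDegree = d := by
      rw [← totalDegree_mul_of_isDomain hA0 hB0, ← hAB, hFd]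
    have h4 : f = homogeneousComponent A.totalDegree A * homogeneousComponent B.totalDegree B := by
      rw [← top_mul A B le_rfl le_rfl, h3, ← hAB, hFt]
    rcases hL.irr.isUnit_or_isUnit h4 with h5 | h5
    · exact Or.inl (key A hA0 h5)
    · exact Or.inr (key B hB0 h5)

end Pool.Agent.Q149.UI
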